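import Pool.Agent.FWS.St3A

set_option autoImplicit false

namespace Pool.Agent.FWS.H46

open Pool.Agent.FWS
open scoped BigOperators

noncomputable section

/-- the weight of an index -/
def wX {N d : ℕ} (x : Fin N → ℤ) (p : Fin d → Fin N) : ℤ := ∑ i, x (p i)

/-- the projection -/
def PP (d N : ℕ) : Matrix (Fin d → Fin N) (Fin d → Fin N) ℂ := cmpL d (1 : Mt N)

theorem PP_apply (d N : ℕ) (p q : Fin d → Fin N) : PP d N p q =
    ((d.factorial : ℂ))⁻¹ * (Matrix.of fun i j : Fin d => (1 : Mt N) (p i) (q j)).det := rfl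

theorem PP_star (d N : ℕ) (p q : Fin d → Fin N) : star (PP d N q p) = PP d N p q := by
  rw [PP_apply, PP_apply, star_mul']
  congr 1
  · simp
  · have h : (Matrix.of fun i j : Fin d => (1 : Mt N) (p i) (q j)) =
        (Matrix.of fun i j : Fin d => (1 : Mt N) (q i) (p j)).conjTranspose := by
      ext i j
      simp only [Matrix.of_apply, Matrix.conjTranspose_apply, Matrix.one_apply]
      by_cases h : p i = q j
      · rw [if_pos h, if_pos h.symm, star_one]
      · rw [if_neg h, if_neg (Ne.symm h), star_zero]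
    rw [h, Matrix.det_conjTranspose]

theorem PP_perm (d N : ℕ) (p q : Fin d → Fin N) (σ : Equiv.Perm (Fin d)) :
    PP d N (p ∘ σ) q = ((σ.sign : ℤ) : ℂ) * PP d N p q := by
  rw [PP_apply, PP_apply]
  have h : (Matrix.of fun i j : Fin d => (1 : Mt N) ((p ∘ σ) i) (q j)) =
      (Matrix.of fun i j : Fin d => (1 : Mt N) (p i) (q j)).submatrix σ id := by
    ext i j
    rfl
  rw [h, Matrix.det_permute]
  ring

theorem PP_ninj (d N : ℕ) (p q : Fin d → Fin N) (hp : ¬ Function.Injective p) :
    PP d N p q = 0 := by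
  rw [PP_apply]
  have : ∃ i j, p i = p j ∧ i ≠ j := by
    by_contra h
    push Not at h
    exact hp (fun i j hij => h i j hij)
  obtain ⟨i, j, hij, hne⟩ := this
  rw [Matrix.det_zero_of_row_eq hne (by
    funext l
    simp only [Matrix.of_apply]
    rw [hij]), mul_zero]

theorem PP_self (d N : ℕ) (p : Fin d → Fin N) (hp : Function.Injective p) :
    PP d N p p = ((d.factorial : ℂ))⁻¹ := by
  rw [PP_apply]
  have h : (Matrix.of fun i j : Fin d => (1 : Mt N) (p i) (p j)) = 1 := by
    ext i j
    simp only [Matrix.of_apply, Matrix.one_apply, hp.eq_iff]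
  rw [h, Matrix.det_one, mul_one]

theorem PP_ne (d N : ℕ) (p q : Fin d → Fin N) (h : PP d N p q ≠ 0) :
    ∃ σ : Equiv.Perm (Fin d), q = p ∘ σ := by
  rw [PP_apply] at h
  have h1 := right_ne_zero_of_mul h
  rw [Matrix.det_apply'] at h1
  obtain ⟨σ, _, hσ⟩ := Finset.exists_ne_zero_of_sum_ne_zero h1
  have h2 := right_ne_zero_of_mul hσ
  rw [Finset.prod_ne_zero_iff] at h2
  refine ⟨σ, ?_⟩
  funext i
  have h3 := h2 i (Finset.mem_univ i)
  simp only [Matrix.of_apply, Matrix.one_apply] at h3
  by_contra h4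
  apply h3
  rw [if_neg (fun h5 => h4 h5.symm)]

theorem PP_wX {N : ℕ} (d : ℕ) (x : Fin N → ℤ) (p q : Fin d → Fin N) :
    (wX x p : ℂ) * PP d N p q = PP d N p q * (wX x q : ℂ) := by
  by_cases h : PP d N p q = 0
  · rw [h, mul_zero, zero_mul]
  · obtain ⟨σ, rfl⟩ := PP_ne d N p q h
    have : wX x (p ∘ σ) = wX x p := by
      unfold wX
      exact Equiv.sum_comp σ (fun i => x (p i))
    rw [this, mul_comm]

theorem cmpL_dgW {N : ℕ} (d : ℕ) (x : Fin N → ℤ) (t : ℝ) (p q : Fin d → Fin N) :
    cmpL d (dgW x t) p q =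
      Complex.exp (((t * (wX x p : ℝ) : ℝ) : ℂ) * Complex.I) * PP d N p q := by
  rw [PP_apply]
  unfold cmpL
  rw [Matrix.of_apply]
  have h : (Matrix.of fun i j : Fin d => dgW x t (p i) (q j)) =
      Matrix.of fun i j : Fin d => Complex.exp (((t * (x (p i) : ℝ) : ℝ) : ℂ) * Complex.I) *
        (Matrix.of fun i j : Fin d => (1 : Mt N) (p i) (q j)) i j := by
    ext i j
    simp only [Matrix.of_apply, dgW, Matrix.diagonal_apply, Matrix.one_apply]
    by_cases h : p i = q j
    · rw [if_pos h, if_pos h, mul_one]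
    · rw [if_neg h, if_neg h, mul_zero]
  rw [h, Matrix.det_mul_column, ← Complex.exp_sum]
  have h2 : ∑ i, ((t * (x (p i) : ℝ) : ℝ) : ℂ) * Complex.I =
      ((t * (wX x p : ℝ) : ℝ) : ℂ) * Complex.I := by
    rw [← Finset.sum_mul]
    congr 1
    unfold wX
    push_cast
    rw [Finset.mul_sum]
  rw [h2]
  ring

/-- the matrix of the circle -/
def AA {N : ℕ} (d : ℕ) (x : Fin N → ℤ) : Matrix (Fin d → Fin N) (Fin d → Fin N) ℂ :=
  Matrix.of fun p q => (wX x p : ℂ) * PP d N p q

theorem AA_mulVec {N : ℕ} (d : ℕ) (x : Fin N → ℤ) (v : (Fin d → Fin N) → ℂ)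
    (p : Fin d → Fin N) : (AA d x).mulVec v p = (wX x p : ℂ) * (PP d N).mulVec v p := by
  simp only [AA, Matrix.mulVec, dotProduct, Matrix.of_apply]
  rw [Finset.mul_sum]
  exact Finset.sum_congr rfl (fun q _ => by ring)

theorem PP_AA {N : ℕ} (d : ℕ) (x : Fin N → ℤ) (hPP : PP d N * PP d N = PP d N) :
    PP d N * AA d x = AA d x := by
  ext p q
  rw [Matrix.mul_apply]
  have h : ∀ r, PP d N p r * AA d x r q = (wX x p : ℂ) * (PP d N p r * PP d N r q) := by
    intro r
    simp only [AA, Matrix.of_apply]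
    rw [← mul_assoc, ← PP_wX]
    ring
  simp only [h]
  rw [← Finset.mul_sum, ← Matrix.mul_apply, hPP]
  rfl

theorem PP_fix {N : ℕ} (d : ℕ) (x : Fin N → ℤ) (hPP : PP d N * PP d N = PP d N)
    (v : (Fin d → Fin N) → ℂ) (l : ℂ) (hl : l ≠ 0) (hv : (AA d x).mulVec v = l • v) :
    (PP d N).mulVec v = v := by
  have h1 : (PP d N).mulVec ((AA d x).mulVec v) = (AA d x).mulVec v := by
    rw [Matrix.mulVec_mulVec, PP_AA d x hPP]
  rw [hv, Matrix.mulVec_smul] at h1
  have h2 : l⁻¹ • (l • (PP d N).mulVec v) = l⁻¹ • (l • v) := by rw [h1]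
  rwa [smul_smul, smul_smul, inv_mul_cancel₀ hl, one_smul, one_smul] at h2

theorem cmpM_mulVec {N : ℕ} (d : ℕ) (x : Fin N → ℤ) (t : ℝ) (v : (Fin d → Fin N) → ℂ)
    (p : Fin d → Fin N) : (cmpM d (dgW x t)).mulVec v p =
      Complex.exp (((t * (wX x p : ℝ) : ℝ) : ℂ) * Complex.I) * (PP d N).mulVec v p + v p -
        (PP d N).mulVec v p := by
  unfold cmpM
  rw [Matrix.sub_mulVec, Matrix.add_mulVec, Matrix.one_mulVec]
  simp only [Pi.sub_apply, Pi.add_apply]
  have h : (cmpL d (dgW x t)).mulVec v p =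
      Complex.exp (((t * (wX x p : ℝ) : ℝ) : ℂ) * Complex.I) * (PP d N).mulVec v p := by
    simp only [Matrix.mulVec, dotProduct]
    rw [Finset.mul_sum]
    exact Finset.sum_congr rfl (fun q _ => by rw [cmpL_dgW]; ring)
  rw [h]
  rfl

/-- SIM: the top weight of the right exterior power is simple -/
theorem sim (hCAB : CAB) : SIM := by
  intro N x hx0 hsum
  classical
  -- the maximum
  have hne : Nonempty (Fin N) := by
    by_contra h
    rw [not_nonempty_iff] at h
    exact hx0 (funext fun k => (h.false k).elim)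
  obtain ⟨k0, -, hk0⟩ := Finset.exists_max_image Finset.univ x Finset.univ_nonempty
  have hk0' : ∀ k, x k ≤ x k0 := fun k => hk0 k (Finset.mem_univ k)
  have hpos : 0 < x k0 := by
    by_contra h
    push Not at h
    apply hx0
    have h1 : ∀ k ∈ Finset.univ, x k ≤ 0 := fun k _ => (hk0' k).trans h
    funext k
    exact (Finset.sum_eq_zero_iff_of_nonpos h1).1 hsum k (Finset.mem_univ k)
  let S : Finset (Fin N) := Finset.univ.filter (fun k => x k = x k0)
  have hmem : ∀ k, k ∈ S ↔ x k = x k0 := fun k => by simp [S]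
  let d : ℕ := S.card
  have hd : 0 < d := Finset.card_pos.2 ⟨k0, (hmem k0).2 rfl⟩
  let p₀ : Fin d → Fin N := fun i => (S.orderIsoOfFin rfl i : Fin N)
  have hp₀S : ∀ i, x (p₀ i) = x k0 := fun i => (hmem _).1 (S.orderIsoOfFin rfl i).2
  have hp₀inj : Function.Injective p₀ := fun i j hij =>
    (S.orderIsoOfFin rfl).injective (Subtype.ext hij)
  have hform : ∀ p : Fin d → Fin N, Function.Injective p → (∀ i, x (p i) = x k0) →
      ∃ σ : Equiv.Perm (Fin d), p = p₀ ∘ σ := by
    intro p hp hpS
    let f : Fin d → Fin d := fun i => (S.orderIsoOfFin rfl).symm ⟨p i, (hmem _).2 (hpS i)⟩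
    have hf : Function.Injective f := by
      intro i j hij
      have := (S.orderIsoOfFin rfl).symm.injective hij
      exact hp (Subtype.ext_iff.1 this)
    refine ⟨Equiv.ofBijective f (Finite.injective_iff_bijective.1 hf), ?_⟩
    funext i
    simp only [p₀, Function.comp_apply, Equiv.ofBijective_apply, f, OrderIso.apply_symm_apply]
  have hPP : PP d N * PP d N = PP d N := by
    unfold PP
    rw [hCAB, mul_one]
  have hXp₀ : wX x p₀ = d * x k0 := by
    unfold wX
    simp only [hp₀S, Finset.sum_const, Finset.card_univ, Fintype.card_fin, nsmul_eq_mul]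
  have hm : 0 < (d : ℤ) * x k0 := by positivity
  have hfac : ((d.factorial : ℂ)) ≠ 0 := by
    exact_mod_cast d.factorial_ne_zero
  refine ⟨d, AA d x, fun p => PP d N p p₀, d * x k0, hm, ?_⟩
  have hPω : ∀ p, (PP d N).mulVec (fun q => PP d N q p₀) p = PP d N p p₀ := by
    intro p
    have h1 := congrFun (congrFun hPP p) p₀
    rw [Matrix.mul_apply] at h1
    exact h1
  constructor
  · -- herm
    ext p q
    simp only [Matrix.conjTranspose_apply, AA, Matrix.of_apply]
    rw [star_mul', PP_star]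
    have : star ((wX x q : ℤ) : ℂ) = (wX x q : ℂ) := by simp
    rw [this, mul_comm, ← PP_wX]
  · -- ne
    intro h
    have h1 := congrFun h p₀
    simp only [Pi.zero_apply] at h1
    rw [PP_self d N p₀ hp₀inj] at h1
    exact inv_ne_zero hfac h1
  · -- eig
    funext p
    rw [AA_mulVec, hPω, PP_wX, hXp₀]
    simp only [Pi.smul_apply, smul_eq_mul]
    ring
  · -- int
    intro v l hv hAv
    by_cases hl : l = 0
    · exact ⟨0, by simp [hl]⟩
    · have hl' : (l : ℂ) ≠ 0 := by exact_mod_cast hl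
      have h1 := PP_fix d x hPP v _ hl' hAv
      obtain ⟨p, hp⟩ : ∃ p, v p ≠ 0 := by
        by_contra h
        push Not at h
        exact hv (funext h)
      have h2 := congrFun hAv p
      rw [AA_mulVec, h1] at h2
      simp only [Pi.smul_apply, smul_eq_mul] at h2
      have h3 := mul_right_cancel₀ hp h2
      exact ⟨wX x p, by exact_mod_cast h3⟩
  · -- top
    intro v z hAv hz
    have hz0 : (z : ℂ) ≠ 0 := by
      have : z ≠ 0 := by omega
      exact_mod_cast this
    have h1 := PP_fix d x hPP v _ hz0 hAv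
    have hperm : ∀ σ : Equiv.Perm (Fin d), v (p₀ ∘ σ) =
        (v p₀ * (d.factorial : ℂ)) * PP d N (p₀ ∘ σ) p₀ := by
      intro σ
      have h2 : v (p₀ ∘ σ) = ((σ.sign : ℤ) : ℂ) * v p₀ := by
        have h3 := congrFun h1 (p₀ ∘ σ)
        have h4 := congrFun h1 p₀
        rw [← h3, ← h4]
        simp only [Matrix.mulVec, dotProduct]
        rw [Finset.mul_sum]
        exact Finset.sum_congr rfl (fun q _ => by rw [PP_perm]; ring)
      rw [h2, PP_perm, PP_self d N p₀ hp₀inj]
      field_simp
    refine ⟨v p₀ * (d.factorial : ℂ), ?_⟩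
    funext p
    simp only [Pi.smul_apply, smul_eq_mul]
    by_cases hp : ∃ σ : Equiv.Perm (Fin d), p = p₀ ∘ σ
    · obtain ⟨σ, rfl⟩ := hp
      exact hperm σ
    · have hω : PP d N p p₀ = 0 := by
        by_contra h
        obtain ⟨σ, hσ⟩ := PP_ne d N p p₀ h
        apply hp
        refine ⟨σ⁻¹, ?_⟩
        rw [hσ]
        funext i
        simp
      rw [hω, mul_zero]
      by_contra hvp
      apply hp
      have h2 := congrFun hAv p
      rw [AA_mulVec, h1] at h2
      simp only [Pi.smul_apply, smul_eq_mul] at h2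
      have h3 : ((wX x p : ℤ) : ℂ) = (z : ℂ) := mul_right_cancel₀ hvp h2
      have h4 : wX x p = z := by exact_mod_cast h3
      have hinj : Function.Injective p := by
        by_contra hinj
        apply hvp
        rw [← congrFun h1 p]
        simp only [Matrix.mulVec, dotProduct]
        exact Finset.sum_eq_zero (fun q _ => by rw [PP_ninj d N p q hinj, zero_mul])
      apply hform p hinj
      -- all weights are maximal
      have h5 : ∑ i, (x k0 - x (p i)) = d * x k0 - z := by
        rw [Finset.sum_sub_distrib, ← h4]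
        simp only [Finset.sum_const, Finset.card_univ, Fintype.card_fin, nsmul_eq_mul]
        rfl
      have h6 : ∑ i, (x k0 - x (p i)) ≤ 0 := by rw [h5]; linarith
      have h7 : ∀ i ∈ Finset.univ, 0 ≤ x k0 - x (p i) := fun i _ => sub_nonneg.2 (hk0' _)
      have h8 := (Finset.sum_eq_zero_iff_of_nonneg h7).1
        (le_antisymm h6 (Finset.sum_nonneg h7))
      intro i
      have := h8 i (Finset.mem_univ i)
      linarith
  · -- one
    have h : dgW x 0 = (1 : Mt N) := by
      unfold dgW
      ext i j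
      simp [Matrix.diagonal_apply, Matrix.one_apply]
    simp only [h]
    unfold cmpM
    abel
  · -- der
    intro p q
    have hf : (fun t : ℝ => cmpM d (dgW x t) p q) = fun t : ℝ =>
        Complex.exp (((t * (wX x p : ℝ) : ℝ) : ℂ) * Complex.I) * PP d N p q +
          (1 : Matrix (Fin d → Fin N) (Fin d → Fin N) ℂ) p q - PP d N p q := by
      funext t
      unfold cmpM
      rw [Matrix.sub_apply, Matrix.add_apply, cmpL_dgW]
      rfl
    rw [hf]
    have h1 : HasDerivAt (fun t : ℝ => ((t * (wX x p : ℝ) : ℝ) : ℂ) * Complex.I)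
        ((((1 : ℝ) * (wX x p : ℝ) : ℝ) : ℂ) * Complex.I) 0 :=
      (((hasDerivAt_id (0 : ℝ)).mul_const (wX x p : ℝ)).ofReal_comp).mul_const _
    have h2 := ((h1.cexp).mul_const (PP d N p q)).add_const
      ((1 : Matrix (Fin d → Fin N) (Fin d → Fin N) ℂ) p q) |>.sub_const (PP d N p q)
    have e : Complex.exp ((((0 : ℝ) * (wX x p : ℝ) : ℝ) : ℂ) * Complex.I) *
        ((((1 : ℝ) * (wX x p : ℝ) : ℝ) : ℂ) * Complex.I) * PP d N p q =
        Complex.I * AA d x p q := by
      simp only [AA, Matrix.of_apply, zero_mul, Complex.ofReal_zero, Complex.exp_zero, one_mul]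
      push_cast
      ring
    rw [← e]
    exact h2
  · -- act
    intro v z hAv t
    funext p
    simp only [Pi.smul_apply, smul_eq_mul]
    rw [cmpM_mulVec]
    have h2 := congrFun hAv p
    rw [AA_mulVec] at h2
    simp only [Pi.smul_apply, smul_eq_mul] at h2
    by_cases hz : z = 0
    · subst hz
      simp only [Int.cast_zero, zero_mul, mul_zero, Complex.ofReal_zero, Complex.exp_zero,
        one_mul] at h2 ⊢
      rcases mul_eq_zero.1 h2 with h3 | h3
      · have h4 : wX x p = 0 := by exact_mod_cast h3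
        rw [h4]
        simp
      · rw [h3]
        ring
    · have hz0 : (z : ℂ) ≠ 0 := by exact_mod_cast hz
      have h1 := congrFun (PP_fix d x hPP v _ hz0 hAv) p
      rw [h1] at h2 ⊢
      by_cases hv : v p = 0
      · rw [hv]
        ring
      · have h3 : ((wX x p : ℤ) : ℂ) = (z : ℂ) := mul_right_cancel₀ hv h2
        have h4 : wX x p = z := by exact_mod_cast h3
        rw [h4]
        ring

end

end Pool.Agent.FWS.H46
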